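import Pool.Agent.TH735.MS.Max

/-!
# The dimension of the set of points with large partial sums
-/

set_option autoImplicit false

namespace Pool.Agent.TH735.MS

open Finset Set Filter Topology MeasureTheory
open scoped ENNReal NNReal

/-- Hausdorff dimension of a limsup set covered by few balls at each scale -/
lemma dimH_limsup (E : ℕ → Set ℝ) (C : ℕ → Finset ℝ) (r : ℕ → ℝ) (s : ℝ≥0) (ρ M : ℝ)
    (hr : ∀ m, 0 < r m) (hr0 : Tendsto r atTop (𝓝 0)) (hra : Antitone r)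
    (hE : ∀ m, ∀ x ∈ E m, ∃ y ∈ C m, |x - y| ≤ r m) (hρ : 0 ≤ ρ) (hρ1 : ρ < 1)
    (hc : ∀ m, ((C m).card : ℝ) * (2 * r m) ^ (s : ℝ) ≤ M * ρ ^ m) (hM : 0 ≤ M) :
    dimH {x | ∀ n, ∃ m, x ∈ E (n + m)} ≤ s := by
  apply dimH_le_of_hausdorffMeasure_ne_top
  have hball : ∀ m (y : ℝ), Metric.ediam (Metric.closedBall y (r m)) ≤ ENNReal.ofReal (2 * r m) := by
    intro m y
    apply Metric.ediam_le
    intro x hx z hz
    rw [edist_dist]
    apply ENNReal.ofReal_le_ofReal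
    rw [Metric.mem_closedBall] at hx hz
    have h3 := dist_triangle_right x z y
    linarith
  have hmain : μH[(s : ℝ)] {x | ∀ n, ∃ m, x ∈ E (n + m)} ≤ 0 := by
    have h1 := Measure.hausdorffMeasure_le_liminf_tsum (X := ℝ) (β := ℕ)
      (ι := fun n => Σ m : ℕ, C (n + m)) (s : ℝ) {x | ∀ n, ∃ m, x ∈ E (n + m)} (l := atTop)
      (fun n => ENNReal.ofReal (2 * r n)) (by
        have h2 : Tendsto (fun n => 2 * r n) atTop (𝓝 0) := by simpa using hr0.const_mul 2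
        rw [← ENNReal.ofReal_zero]
        exact (ENNReal.continuous_ofReal.tendsto 0).comp h2)
      (fun n i => Metric.closedBall (i.2 : ℝ) (r (n + i.1)))
      (Eventually.of_forall fun n i => by
        refine (hball (n + i.1) _).trans ?_
        apply ENNReal.ofReal_le_ofReal
        have h4 := hra (Nat.le_add_right n i.1)
        linarith)
      (Eventually.of_forall fun n => by
        intro x hx
        obtain ⟨m, hm⟩ := hx n
        obtain ⟨y, hy1, hy2⟩ := hE (n + m) x hm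
        exact mem_iUnion.mpr ⟨⟨m, ⟨y, hy1⟩⟩, by
          rw [Metric.mem_closedBall, Real.dist_eq]
          exact hy2⟩)
    refine h1.trans ?_
    have h2 : ∀ n : ℕ, ∑' i : (Σ m : ℕ, C (n + m)),
        Metric.ediam (Metric.closedBall (i.2 : ℝ) (r (n + i.1))) ^ (s : ℝ) ≤
        ENNReal.ofReal (M * ρ ^ n * (1 - ρ)⁻¹) := by
      intro n
      rw [ENNReal.tsum_sigma']
      have h3 : ∀ m : ℕ, ∑' y : C (n + m),
          Metric.ediam (Metric.closedBall (y : ℝ) (r (n + m))) ^ (s : ℝ) ≤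
          ENNReal.ofReal (M * ρ ^ n * ρ ^ m) := by
        intro m
        rw [tsum_fintype]
        have h4 : ∀ y : C (n + m), Metric.ediam (Metric.closedBall (y : ℝ) (r (n + m))) ^ (s : ℝ)
            ≤ ENNReal.ofReal ((2 * r (n + m)) ^ (s : ℝ)) := by
          intro y
          rw [← ENNReal.ofReal_rpow_of_pos (by have := hr (n + m); positivity)]
          apply ENNReal.rpow_le_rpow _ s.2
          exact hball _ _
        refine (Finset.sum_le_card_nsmul _ _ _ (fun y _ => h4 y)).trans ?_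
        rw [Finset.card_univ, Fintype.card_coe, nsmul_eq_mul, ← ENNReal.ofReal_natCast,
          ← ENNReal.ofReal_mul (by positivity)]
        apply ENNReal.ofReal_le_ofReal
        have := hc (n + m)
        rw [pow_add, ← mul_assoc] at this
        exact this
      refine (ENNReal.tsum_le_tsum h3).trans ?_
      rw [← ENNReal.ofReal_tsum_of_nonneg (fun m => by positivity)
        ((summable_geometric_of_lt_one hρ hρ1).mul_left _), tsum_mul_left,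
        tsum_geometric_of_lt_one hρ hρ1]
    have h3 : Tendsto (fun n : ℕ => ENNReal.ofReal (M * ρ ^ n * (1 - ρ)⁻¹)) atTop (𝓝 0) := by
      have h4 : Tendsto (fun n : ℕ => M * ρ ^ n * (1 - ρ)⁻¹) atTop (𝓝 0) := by
        have := ((tendsto_pow_atTop_nhds_zero_of_lt_one hρ hρ1).const_mul M).mul_const (1 - ρ)⁻¹
        simpa using this
      rw [← ENNReal.ofReal_zero]
      exact (ENNReal.continuous_ofReal.tendsto 0).comp h4
    calc _ ≤ liminf (fun n : ℕ => ENNReal.ofReal (M * ρ ^ n * (1 - ρ)⁻¹)) atTop :=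
          liminf_le_liminf (Eventually.of_forall h2)
      _ = 0 := h3.liminf_eq
  exact ne_top_of_le_ne_top ENNReal.zero_ne_top hmain

/-- The sets `X 1, X 2, …` are uniformly bounded and, for all `ε > 0`, the union of the sets
`X R'`, `R ≤ R' ≤ 4 R`, is covered by `O(R ^ (d + ε))` intervals of length `2 / R`. -/
def Thin (X : ℕ → Set ℝ) (d : ℝ) : Prop :=
  (∃ B : ℝ, ∀ R, 1 ≤ R → ∀ x ∈ X R, |x| ≤ B) ∧
    ∀ ε : ℝ, 0 < ε → ∃ C : ℝ, ∀ R : ℕ, 1 ≤ R → ∃ P : Finset ℝ,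
      (P.card : ℝ) ≤ C * (R : ℝ) ^ (d + ε) ∧
        ∀ R' : ℕ, R ≤ R' → R' ≤ 4 * R → ∀ x ∈ X R', ∃ p ∈ P, |x - p| ≤ 1 / R

/-- the `t` for which there are large sums at points of `X R + t`, for infinitely many `R` -/
def Exc (a : ℕ → ℂ) (X : ℕ → Set ℝ) (θ : ℝ) : Set ℝ :=
  {t | ∃ᶠ R : ℕ in atTop, ∃ x ∈ X R, (R : ℝ) ^ θ < ‖S a (R + 1) (x + t)‖}

lemma pow_rpow (K : ℕ) (x : ℝ) : ((2 : ℝ) ^ K) ^ x = ((2 : ℝ) ^ x) ^ K := by
  rw [← Real.rpow_natCast, ← Real.rpow_mul (by norm_num), mul_comm, Real.rpow_mul (by norm_num),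
    Real.rpow_natCast]

lemma poly_geo (η : ℝ) (hη : 0 < η) : ∃ C : ℝ, 0 ≤ C ∧ ∀ K : ℕ,
    (K : ℝ) ^ 2 * ((2 : ℝ) ^ (-η)) ^ K ≤ C * ((2 : ℝ) ^ (-η / 2)) ^ K := by
  have h1 : (2 : ℝ) ^ (-η / 2) < 1 := by
    apply Real.rpow_lt_one_of_one_lt_of_neg (by norm_num)
    linarith
  have h0 : (0 : ℝ) < 2 ^ (-η / 2) := by positivity
  have h2 := tendsto_pow_const_mul_const_pow_of_lt_one 2 h0.le h1
  obtain ⟨C, hC⟩ := h2.bddAbove_range
  refine ⟨max C 0, le_max_right _ _, fun K => ?_⟩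
  have h3 : (K : ℝ) ^ 2 * ((2 : ℝ) ^ (-η / 2)) ^ K ≤ max C 0 :=
    (hC ⟨K, rfl⟩).trans (le_max_left _ _)
  have h4 : ((2 : ℝ) ^ (-η)) ^ K = ((2 : ℝ) ^ (-η / 2)) ^ K * ((2 : ℝ) ^ (-η / 2)) ^ K := by
    rw [← mul_pow, ← Real.rpow_add (by norm_num)]
    congr 2
    ring
  rw [h4, ← mul_assoc]
  exact mul_le_mul_of_nonneg_right h3 (by positivity)

/-- one bounded piece -/
lemma dim_piece (a : ℕ → ℂ) (ha : ∀ n, ‖a n‖ ≤ 1) (X : ℕ → Set ℝ) (d θ : ℝ)
    (hd : 0 ≤ d) (hX : Thin X d) (hθ : 0 < θ) (A : ℕ) (s : ℝ≥0) (hs : 2 - 2 * θ + d < s) :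
    dimH (Exc a X θ ∩ {t | |t| ≤ A}) ≤ s := by
  classical
  obtain ⟨⟨B, hB⟩, hcov⟩ := hX
  set η : ℝ := ((s : ℝ) - (2 - 2 * θ + d)) / 2 with hη
  have hη0 : 0 < η := by rw [hη]; linarith
  obtain ⟨C₀, hC₀⟩ := hcov η hη0
  choose! P hP1 hP2 using hC₀
  set C : ℝ := max C₀ 0 with hC
  obtain ⟨G, hG0, hG⟩ := poly_geo η hη0
  set V : ℕ → ℝ := fun K => ((2 : ℝ) ^ K / 4) ^ θ / (1 + 2 * Real.pi) with hV
  have hpi := Real.pi_pos
  have hV0 : ∀ K, 0 < V K := fun K => by rw [hV]; positivity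
  set M : ℕ := ⌈|B|⌉₊ + A + 1 with hM
  set E : ℕ → Set ℝ := fun K => {t | |t| ≤ A ∧ ∃ R : ℕ, 1 ≤ R ∧ R + 1 < 2 ^ K ∧
    2 ^ K ≤ 2 * (R + 1) ∧ ∃ x ∈ X R, (R : ℝ) ^ θ < ‖S a (R + 1) (x + t)‖} with hE
  set Cv : ℕ → Finset ℝ := fun K =>
    ((Finset.Icc (-(M : ℤ)) M) ×ˢ ((Bad a K (V K)) ×ˢ (P (2 ^ (K - 2))))).image
      (fun q => (q.1 : ℝ) + (q.2.1 : ℝ) / (2 ^ K : ℕ) - q.2.2) with hCv
  have hsub : Exc a X θ ∩ {t | |t| ≤ A} ⊆ {x | ∀ n, ∃ m, x ∈ E (n + m)} := by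
    rintro t ⟨ht, htA⟩ n
    obtain ⟨R, hR, x, hx, hxt⟩ := (frequently_atTop.1 ht) (2 ^ n)
    set K := Nat.log 2 (R + 1) + 1 with hK
    have h1 : R + 1 < 2 ^ K := Nat.lt_pow_succ_log_self (by norm_num) _
    have h2 : 2 ^ (K - 1) ≤ R + 1 := by
      rw [hK, Nat.add_sub_cancel]
      exact Nat.pow_log_le_self 2 (by omega)
    have h3 : n ≤ K := by
      have : 2 ^ n < 2 ^ K := by omega
      exact ((Nat.pow_lt_pow_iff_right (by norm_num)).1 this).le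
    have h4 : 1 ≤ R := le_trans Nat.one_le_two_pow hR
    refine ⟨K - n, ?_⟩
    rw [Nat.add_sub_cancel' h3, hE]
    refine ⟨htA, R, h4, h1, ?_, x, hx, hxt⟩
    have : 2 ^ K = 2 * 2 ^ (K - 1) := by
      rw [← pow_succ']
      congr 1
    omega
  refine (dimH_mono hsub).trans ?_
  refine dimH_limsup E Cv (fun K => 5 * ((1 : ℝ) / 2) ^ K) s ((2 : ℝ) ^ (-η / 2))
    (((2 * M + 1 : ℕ) : ℝ) * (1 + 2 * Real.pi) ^ 2 * (4 : ℝ) ^ (2 * θ) * C * (10 : ℝ) ^ (s : ℝ) * G)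
    (fun m => by positivity) ?_ ?_ ?_ (by positivity) ?_ ?_ (by positivity)
  · have := (tendsto_pow_atTop_nhds_zero_of_lt_one (r := (1 : ℝ) / 2) (by norm_num)
      (by norm_num)).const_mul 5
    simpa using this
  · intro m n hmn
    simp only
    apply mul_le_mul_of_nonneg_left _ (by norm_num)
    exact pow_le_pow_of_le_one (by norm_num) (by norm_num) hmn
  · rintro K t ⟨htA, R, hR1, hRK, hKR, x, hx, hxt⟩
    have hN0 : (0 : ℝ) < ((2 ^ K : ℕ) : ℝ) := by positivity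
    have hK2 : 2 ≤ K := by
      by_contra hcon
      have h1 : 2 ^ K ≤ 2 ^ 1 := Nat.pow_le_pow_right (by norm_num) (by omega)
      omega
    have hK4 : 2 ^ K = 4 * 2 ^ (K - 2) := by
      have h1 : (4 : ℕ) = 2 ^ 2 := by norm_num
      rw [h1, ← pow_add]
      congr 1
      omega
    have hK1 : 1 ≤ 2 ^ (K - 2) := Nat.one_le_two_pow
    obtain ⟨p, hp, hxp⟩ := hP2 (2 ^ (K - 2)) Nat.one_le_two_pow R (by omega) (by omega) x hx
    have hlarge : (1 + 2 * Real.pi) * V K < ‖S a (R + 1) (x + t)‖ := by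
      refine lt_of_le_of_lt ?_ hxt
      rw [hV]
      simp only
      rw [mul_div_cancel₀ _ (by positivity)]
      apply Real.rpow_le_rpow (by positivity) _ hθ.le
      rw [div_le_iff₀ (by norm_num)]
      have : ((2 ^ K : ℕ) : ℝ) ≤ ((2 * (R + 1) : ℕ) : ℝ) := by exact_mod_cast hKR
      push_cast at this
      have h5 : (1 : ℝ) ≤ R := by exact_mod_cast hR1
      linarith
    obtain ⟨r, hr, hrt⟩ := mem_bad a K (R + 1) hRK (V K) (x + t) hlarge
    refine ⟨(⌊x + t⌋ : ℝ) + (r : ℝ) / (2 ^ K : ℕ) - p, ?_, ?_⟩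
    · rw [hCv]
      simp only
      rw [Finset.mem_image]
      refine ⟨(⌊x + t⌋, (r, p)), ?_, rfl⟩
      rw [Finset.mem_product, Finset.mem_product]
      refine ⟨?_, hr, hp⟩
      rw [Finset.mem_Icc]
      have hxB : |x| ≤ ⌈|B|⌉₊ := by
        calc |x| ≤ B := hB R hR1 x hx
          _ ≤ |B| := le_abs_self B
          _ ≤ ⌈|B|⌉₊ := Nat.le_ceil _
      have htA' : |t| ≤ A := htA
      have hxt' := abs_add_le x t
      have h6 := abs_le.1 (hxt'.trans (add_le_add hxB htA'))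
      have h7 : (⌊x + t⌋ : ℝ) ≤ x + t := Int.floor_le _
      have h8 : x + t < ⌊x + t⌋ + 1 := Int.lt_floor_add_one _
      constructor
      · have : (-(M : ℤ) : ℝ) ≤ ((⌊x + t⌋ : ℤ) : ℝ) := by
          rw [hM]
          push_cast
          linarith [h6.1]
        exact_mod_cast this
      · have : ((⌊x + t⌋ : ℤ) : ℝ) ≤ ((M : ℤ) : ℝ) := by
          rw [hM]
          push_cast
          linarith [h6.2]
        exact_mod_cast this
    · have h9 : t - ((⌊x + t⌋ : ℝ) + (r : ℝ) / (2 ^ K : ℕ) - p) =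
          ((x + t) - ((⌊x + t⌋ : ℝ) + (r : ℝ) / (2 ^ K : ℕ))) - (x - p) := by ring
      rw [h9]
      refine (abs_sub _ _).trans ?_
      have h10 : 5 * ((1 : ℝ) / 2) ^ K = 1 / (2 ^ K : ℕ) + 1 / (2 ^ (K - 2) : ℕ) := by
        rw [hK4]
        have h11 : ((1 : ℝ) / 2) ^ K = 1 / (2 ^ K : ℕ) := by
          push_cast
          rw [div_pow, one_pow]
        rw [h11, hK4]
        push_cast
        field_simp
        norm_num
      rw [h10]
      exact add_le_add hrt hxp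
  · apply Real.rpow_lt_one_of_one_lt_of_neg (by norm_num)
    linarith
  · intro K
    have hN0 : (0 : ℝ) < (2 : ℝ) ^ K := by positivity
    have c1 : ((Cv K).card : ℝ) ≤ ((2 * M + 1 : ℕ) : ℝ) *
        (((Bad a K (V K)).card : ℝ) * ((P (2 ^ (K - 2))).card : ℝ)) := by
      have h1 : (Cv K).card ≤ (2 * M + 1) * ((Bad a K (V K)).card * (P (2 ^ (K - 2))).card) := by
        rw [hCv]
        simp only
        refine Finset.card_image_le.trans ?_
        rw [Finset.card_product, Finset.card_product, Int.card_Icc]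
        apply Nat.mul_le_mul_right
        omega
      exact_mod_cast h1
    have c2 : ((Bad a K (V K)).card : ℝ) ≤ K ^ 2 * 4 ^ K * (1 + 2 * Real.pi) ^ 2 *
        (4 / (2 : ℝ) ^ K) ^ (2 * θ) := by
      have h1 := card_bad a ha K (V K) (hV0 K).le
      have h2 : V K ^ 2 * ((1 + 2 * Real.pi) ^ 2 * (4 / (2 : ℝ) ^ K) ^ (2 * θ)) = 1 := by
        rw [hV]
        simp only
        rw [div_pow, ← Real.rpow_natCast (((2 : ℝ) ^ K / 4) ^ θ) 2, ← Real.rpow_mul (by positivity)]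
        have h3 : (4 / (2 : ℝ) ^ K) = ((2 : ℝ) ^ K / 4)⁻¹ := by rw [inv_div]
        rw [h3, Real.inv_rpow (by positivity)]
        have h4 : θ * ((2 : ℕ) : ℝ) = 2 * θ := by push_cast; ring
        rw [h4]
        have h5 : ((2 : ℝ) ^ K / 4) ^ (2 * θ) ≠ 0 := by positivity
        field_simp
      calc ((Bad a K (V K)).card : ℝ) = ((Bad a K (V K)).card : ℝ) * V K ^ 2 *
            ((1 + 2 * Real.pi) ^ 2 * (4 / (2 : ℝ) ^ K) ^ (2 * θ)) := by
              rw [mul_assoc, h2, mul_one]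
        _ ≤ K ^ 2 * 4 ^ K * ((1 + 2 * Real.pi) ^ 2 * (4 / (2 : ℝ) ^ K) ^ (2 * θ)) :=
              mul_le_mul_of_nonneg_right h1 (by positivity)
        _ = _ := by ring
    have hC0 : 0 ≤ C := le_max_right _ _
    have c3 : ((P (2 ^ (K - 2))).card : ℝ) ≤ C * ((2 : ℝ) ^ K) ^ (d + η) := by
      have h1 := hP1 (2 ^ (K - 2)) Nat.one_le_two_pow
      push_cast at h1
      refine h1.trans ?_
      refine (mul_le_mul_of_nonneg_right (le_max_left C₀ 0) (by positivity)).trans ?_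
      apply mul_le_mul_of_nonneg_left _ hC0
      apply Real.rpow_le_rpow (by positivity) _ (by linarith)
      exact pow_le_pow_right₀ (by norm_num) (by omega)
    have c4 : (2 * (5 * ((1 : ℝ) / 2) ^ K)) ^ (s : ℝ) =
        (10 : ℝ) ^ (s : ℝ) * (((2 : ℝ) ^ K) ^ (s : ℝ))⁻¹ := by
      have : (2 * (5 * ((1 : ℝ) / 2) ^ K)) = 10 / (2 : ℝ) ^ K := by
        rw [div_pow, one_pow]
        ring
      rw [this, Real.div_rpow (by norm_num) (by positivity), div_eq_mul_inv]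
    have c5 : (4 / (2 : ℝ) ^ K) ^ (2 * θ) = (4 : ℝ) ^ (2 * θ) * (((2 : ℝ) ^ K) ^ (2 * θ))⁻¹ := by
      rw [Real.div_rpow (by norm_num) (by positivity), div_eq_mul_inv]
    have c6 : (4 : ℝ) ^ K = ((2 : ℝ) ^ K) ^ (2 : ℝ) := by
      rw [pow_rpow]
      congr 1
      norm_num
    have c7 : (4 : ℝ) ^ K * (((2 : ℝ) ^ K) ^ (2 * θ))⁻¹ * ((2 : ℝ) ^ K) ^ (d + η) *
        (((2 : ℝ) ^ K) ^ (s : ℝ))⁻¹ = ((2 : ℝ) ^ (-η)) ^ K := by
      rw [c6, ← Real.rpow_neg hN0.le, ← Real.rpow_neg hN0.le, ← Real.rpow_add hN0,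
        ← Real.rpow_add hN0, ← Real.rpow_add hN0, pow_rpow]
      congr 2
      rw [hη]
      ring
    calc ((Cv K).card : ℝ) * (2 * (5 * ((1 : ℝ) / 2) ^ K)) ^ (s : ℝ)
        ≤ (((2 * M + 1 : ℕ) : ℝ) * ((K ^ 2 * 4 ^ K * (1 + 2 * Real.pi) ^ 2 *
          (4 / (2 : ℝ) ^ K) ^ (2 * θ)) * (C * ((2 : ℝ) ^ K) ^ (d + η)))) *
            (2 * (5 * ((1 : ℝ) / 2) ^ K)) ^ (s : ℝ) := by
          apply mul_le_mul_of_nonneg_right _ (by positivity)
          refine c1.trans ?_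
          apply mul_le_mul_of_nonneg_left _ (by positivity)
          exact mul_le_mul c2 c3 (by positivity) (by positivity)
      _ = ((2 * M + 1 : ℕ) : ℝ) * (1 + 2 * Real.pi) ^ 2 * (4 : ℝ) ^ (2 * θ) * C * (10 : ℝ) ^ (s : ℝ) *
          ((K : ℝ) ^ 2 * ((4 : ℝ) ^ K * (((2 : ℝ) ^ K) ^ (2 * θ))⁻¹ * ((2 : ℝ) ^ K) ^ (d + η) *
        (((2 : ℝ) ^ K) ^ (s : ℝ))⁻¹)) := by
          rw [c4, c5]
          ring
      _ ≤ ((2 * M + 1 : ℕ) : ℝ) * (1 + 2 * Real.pi) ^ 2 * (4 : ℝ) ^ (2 * θ) * C * (10 : ℝ) ^ (s : ℝ) *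
          (G * ((2 : ℝ) ^ (-η / 2)) ^ K) := by
          rw [c7]
          exact mul_le_mul_of_nonneg_left (hG K) (by positivity)
      _ = _ := by ring

/-- the dimension of the exceptional set -/
theorem dim_exc (a : ℕ → ℂ) (ha : ∀ n, ‖a n‖ ≤ 1) (X : ℕ → Set ℝ) (d θ : ℝ) (hd : 0 ≤ d)
    (hX : Thin X d) : dimH (Exc a X θ) ≤ ENNReal.ofReal (2 - 2 * θ + d) := by
  rcases le_or_gt θ (1 / 2) with hθ | hθ
  · calc dimH (Exc a X θ) ≤ dimH (Set.univ : Set ℝ) := dimH_mono (Set.subset_univ _)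
      _ = 1 := Real.dimH_univ
      _ = ENNReal.ofReal 1 := ENNReal.ofReal_one.symm
      _ ≤ _ := ENNReal.ofReal_le_ofReal (by linarith)
  · apply ENNReal.le_of_forall_pos_le_add
    intro ε hε _
    set D : ℝ≥0 := Real.toNNReal (2 - 2 * θ + d) with hD
    have h1 : Exc a X θ = ⋃ A : ℕ, Exc a X θ ∩ {t | |t| ≤ A} := by
      ext t
      simp only [Set.mem_iUnion, Set.mem_inter_iff, Set.mem_ofPred_eq, exists_and_left]
      constructor
      · intro h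
        exact ⟨h, exists_nat_ge _⟩
      · rintro ⟨h, -⟩
        exact h
    rw [h1, dimH_iUnion]
    apply iSup_le
    intro A
    have h2 := dim_piece a ha X d θ hd hX (by linarith) A (D + ε) (by
      have h3 : 2 - 2 * θ + d ≤ (D : ℝ) := Real.le_coe_toNNReal _
      have h4 : (0 : ℝ) < (ε : ℝ) := by exact_mod_cast hε
      push_cast
      linarith)
    refine h2.trans ?_
    rw [ENNReal.coe_add]
    rfl

/-- almost all shifts -/
theorem ae_bound (a : ℕ → ℂ) (ha : ∀ n, ‖a n‖ ≤ 1) (h0 : a 0 = 0) (X : ℕ → Set ℝ) (d ε : ℝ)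
    (hd : 0 ≤ d) (hε : 0 < ε) (hX : Thin X d) :
    ∀ᵐ t : ℝ, ∃ C : ℝ, ∀ R : ℕ, 1 ≤ R → ∀ x ∈ X R,
      ‖S a (R + 1) (x + t)‖ ≤ C * (R : ℝ) ^ ((1 + d) / 2 + ε) := by
  set θ : ℝ := (1 + d) / 2 + ε with hθ
  have hθ0 : 0 ≤ θ := by rw [hθ]; positivity
  have h1 := dim_exc a ha X d θ hd hX
  have h2 : dimH (Exc a X θ) < ((1 : ℝ≥0) : ℝ≥0∞) := by
    refine lt_of_le_of_lt h1 ?_
    have h3 : 2 - 2 * θ + d = 1 - 2 * ε := by rw [hθ]; ring
    rw [h3, ENNReal.coe_one, ← ENNReal.ofReal_one]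
    exact (ENNReal.ofReal_lt_ofReal_iff (by norm_num)).2 (by linarith)
  have h3 := hausdorffMeasure_of_dimH_lt h2
  rw [NNReal.coe_one, hausdorffMeasure_real] at h3
  have h4 : ∀ᵐ t : ℝ, t ∉ Exc a X θ := by
    rw [ae_iff]
    simpa using h3
  filter_upwards [h4] with t ht
  have h5 : ∀ᶠ R : ℕ in atTop, ¬ ∃ x ∈ X R, (R : ℝ) ^ θ < ‖S a (R + 1) (x + t)‖ := by
    simpa [Exc, Filter.not_frequently] using ht
  obtain ⟨R₀, hR₀⟩ := eventually_atTop.1 h5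
  refine ⟨R₀ + 1, fun R hR x hx => ?_⟩
  have hR' : (1 : ℝ) ≤ R := by exact_mod_cast hR
  have h6 : (1 : ℝ) ≤ (R : ℝ) ^ θ := Real.one_le_rpow hR' hθ0
  have h7 : (0 : ℝ) ≤ R₀ := Nat.cast_nonneg _
  rcases le_or_gt R₀ R with h | h
  · have h8 := hR₀ R h
    push Not at h8
    have h9 := h8 x hx
    nlinarith
  · have h8 : ‖S a (R + 1) (x + t)‖ ≤ R := by
      unfold S
      rw [Finset.sum_range_succ']
      rw [h0, zero_mul, add_zero]
      refine (norm_sum_le _ _).trans ?_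
      have : ∀ n ∈ range R, ‖a (n + 1) * ee (((n + 1 : ℕ) : ℝ) * (x + t))‖ ≤ 1 := by
        intro n _
        rw [norm_mul, norm_ee, mul_one]
        exact ha _
      refine (Finset.sum_le_card_nsmul _ _ _ this).trans ?_
      simp
    have h9 : (R : ℝ) ≤ R₀ := by exact_mod_cast h.le
    nlinarith

end Pool.Agent.TH735.MS
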