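import Mathlib

/-!
# Large values of partial sums of trigonometric polynomials with bounded coefficients
-/

set_option autoImplicit false

namespace Pool.Agent.TH735.MS

open Finset

/-- `e(y) = exp(2 π i y)` -/
noncomputable def ee (y : ℝ) : ℂ := Complex.exp (Complex.I * ((2 * Real.pi * y : ℝ) : ℂ))

lemma norm_ee (y : ℝ) : ‖ee y‖ = 1 := by
  unfold ee
  rw [mul_comm]
  exact Complex.norm_exp_ofReal_mul_I _

lemma ee_add (x y : ℝ) : ee (x + y) = ee x * ee y := by
  unfold ee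
  rw [← Complex.exp_add]
  congr 1
  push_cast
  ring

lemma ee_zero : ee 0 = 1 := by simp [ee]

lemma ee_ne (y : ℝ) : ee y ≠ 0 := Complex.exp_ne_zero _

lemma ee_eq_one_iff (y : ℝ) : ee y = 1 ↔ ∃ m : ℤ, y = m := by
  unfold ee
  rw [Complex.exp_eq_one_iff]
  constructor
  · rintro ⟨m, hm⟩
    refine ⟨m, ?_⟩
    have h1 : (Complex.I : ℂ) ≠ 0 := Complex.I_ne_zero
    have h2 : (((2 * Real.pi * y : ℝ)) : ℂ) = ((m * (2 * Real.pi) : ℝ) : ℂ) := by
      apply mul_left_cancel₀ h1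
      rw [hm]
      push_cast
      ring
    have h3 : 2 * Real.pi * y = m * (2 * Real.pi) := by exact_mod_cast h2
    have hpi := Real.pi_pos
    have h4 : (2 * Real.pi) * y = (2 * Real.pi) * m := by linarith
    exact mul_left_cancel₀ (by positivity) h4
  · rintro ⟨m, rfl⟩
    refine ⟨m, ?_⟩
    push_cast
    ring

lemma ee_int (m : ℤ) : ee m = 1 := (ee_eq_one_iff _).2 ⟨m, rfl⟩

lemma ee_nat_mul (n : ℕ) (y : ℝ) : ee (n * y) = ee y ^ n := by
  unfold ee
  rw [← Complex.exp_nat_mul]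
  congr 1
  push_cast
  ring

lemma conj_ee (y : ℝ) : (starRingEnd ℂ) (ee y) = ee (-y) := by
  unfold ee
  rw [← Complex.exp_conj, map_mul, Complex.conj_I, Complex.conj_ofReal]
  congr 1
  push_cast
  ring

lemma norm_ee_sub_one (y : ℝ) : ‖ee y - 1‖ ≤ 2 * Real.pi * |y| := by
  unfold ee
  refine (Real.norm_exp_I_mul_ofReal_sub_one_le).trans ?_
  rw [Real.norm_eq_abs, abs_mul, abs_of_pos (by have := Real.pi_pos; positivity)]

/-- orthogonality -/
lemma orth (N n m : ℕ) (hn : n < N) (hm : m < N) :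
    ∑ r ∈ range N, ee (n * ((r : ℝ) / N)) * ee (-(m * ((r : ℝ) / N))) =
      if n = m then (N : ℂ) else 0 := by
  have hN : (0 : ℝ) < N := by
    have : 0 < N := by omega
    exact_mod_cast this
  split_ifs with h
  · subst h
    have : ∀ r ∈ range N, ee (n * ((r : ℝ) / N)) * ee (-(n * ((r : ℝ) / N))) = 1 := by
      intro r _
      rw [← ee_add, add_neg_cancel, ee_zero]
    rw [sum_congr rfl this]
    simp
  · set w : ℂ := ee (((n : ℝ) - m) / N) with hw
    have h1 : ∀ r ∈ range N, ee (n * ((r : ℝ) / N)) * ee (-(m * ((r : ℝ) / N))) = w ^ r := by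
      intro r _
      rw [← ee_add, hw, ← ee_nat_mul]
      congr 1
      field_simp
      ring
    rw [sum_congr rfl h1]
    have hw1 : w ≠ 1 := by
      rw [hw, Ne, ee_eq_one_iff]
      rintro ⟨k, hk⟩
      have h2 : ((n : ℝ) - m) = k * N := by
        field_simp at hk
        linarith
      have h3 : (n : ℤ) - m = k * N := by exact_mod_cast h2
      have hnN : (n : ℤ) < N := by exact_mod_cast hn
      have hmN : (m : ℤ) < N := by exact_mod_cast hm
      have hne : (n : ℤ) - m ≠ 0 := by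
        intro h4
        apply h
        omega
      have hk0 : k ≠ 0 := by
        rintro rfl
        simp at h3
        exact hne h3
      have hN' : (0 : ℤ) < N := by exact_mod_cast hN
      rcases lt_or_gt_of_ne hk0 with h5 | h5
      · have : k * N ≤ -1 * N := by nlinarith
        omega
      · have : 1 * N ≤ k * N := by nlinarith
        omega
    have hwN : w ^ N = 1 := by
      rw [hw, ← ee_nat_mul]
      have : (N : ℝ) * (((n : ℝ) - m) / N) = ((n - m : ℤ) : ℝ) := by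
        push_cast
        field_simp
      rw [this, ee_int]
    rw [geom_sum_eq hw1, hwN, sub_self, zero_div]

/-- discrete Parseval identity -/
lemma parseval (N : ℕ) (B : Finset ℕ) (hB : ∀ n ∈ B, n < N) (a : ℕ → ℂ) :
    ∑ r ∈ range N, ‖∑ n ∈ B, a n * ee (n * ((r : ℝ) / N))‖ ^ 2 = N * ∑ n ∈ B, ‖a n‖ ^ 2 := by
  have key : ((∑ r ∈ range N, ‖∑ n ∈ B, a n * ee (n * ((r : ℝ) / N))‖ ^ 2 : ℝ) : ℂ) =
      ((N * ∑ n ∈ B, ‖a n‖ ^ 2 : ℝ) : ℂ) := by
    push_cast
    have h1 : ∀ r ∈ range N, ((‖∑ n ∈ B, a n * ee (n * ((r : ℝ) / N))‖ : ℂ)) ^ 2 =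
        ∑ n ∈ B, ∑ m ∈ B, a n * (starRingEnd ℂ) (a m) *
          (ee (n * ((r : ℝ) / N)) * ee (-(m * ((r : ℝ) / N)))) := by
      intro r _
      rw [← Complex.mul_conj', map_sum, sum_mul_sum]
      refine sum_congr rfl fun n _ => sum_congr rfl fun m _ => ?_
      rw [map_mul, conj_ee]
      ring
    rw [sum_congr rfl h1, sum_comm]
    rw [mul_sum]
    refine sum_congr rfl fun n hn => ?_
    rw [sum_comm]
    have h2 : ∀ m ∈ B, ∑ r ∈ range N, a n * (starRingEnd ℂ) (a m) *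
        (ee (n * ((r : ℝ) / N)) * ee (-(m * ((r : ℝ) / N)))) =
        if n = m then a n * (starRingEnd ℂ) (a m) * N else 0 := by
      intro m hm
      rw [← mul_sum, orth N n m (hB n hn) (hB m hm)]
      split_ifs <;> simp
    rw [sum_congr rfl h2, sum_ite_eq, if_pos hn, Complex.mul_conj']
    ring
  exact_mod_cast key

/-- dyadic decomposition of an initial segment -/
lemma dyadic (K : ℕ) (f : ℕ → ℂ) (W : ℕ → ℝ)
    (hW : ∀ i j : ℕ, (j + 1) * 2 ^ i ≤ 2 ^ K → ‖∑ n ∈ Ico (j * 2 ^ i) ((j + 1) * 2 ^ i), f n‖ ≤ W i) :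
    ∀ k j : ℕ, (j + 1) * 2 ^ k ≤ 2 ^ K → ∀ y < 2 ^ k,
      ‖∑ n ∈ Ico (j * 2 ^ k) (j * 2 ^ k + y), f n‖ ≤ ∑ i ∈ range k, W i := by
  intro k
  induction k with
  | zero =>
    intro j _ y hy
    have : y = 0 := by simpa using hy
    subst this
    simp
  | succ k ih =>
    intro j hj y hy
    have e1 : j * 2 ^ (k + 1) = (2 * j) * 2 ^ k := by ring
    have e2 : (2 * j + 1 + 1) * 2 ^ k = (j + 1) * 2 ^ (k + 1) := by ring
    have hle : (2 * j + 1) * 2 ^ k ≤ (2 * j + 1 + 1) * 2 ^ k := Nat.mul_le_mul_right _ (by omega)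
    have hWk := hW k (2 * j) (by rw [← e2] at hj; exact hle.trans hj)
    have hW0 : 0 ≤ W k := (norm_nonneg _).trans hWk
    rw [sum_range_succ, e1]
    by_cases h : y < 2 ^ k
    · have := ih (2 * j) (by rw [← e2] at hj; exact hle.trans hj) y h
      linarith
    · push Not at h
      obtain ⟨z, rfl⟩ := Nat.exists_eq_add_of_le h
      have hz : z < 2 ^ k := by
        rw [pow_succ] at hy
        omega
      have e3 : 2 * j * 2 ^ k + 2 ^ k = (2 * j + 1) * 2 ^ k := by ring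
      have e4 : 2 * j * 2 ^ k + (2 ^ k + z) = (2 * j + 1) * 2 ^ k + z := by ring
      rw [e4, ← sum_Ico_consecutive f (by
          exact Nat.mul_le_mul_right _ (by omega) : 2 * j * 2 ^ k ≤ (2 * j + 1) * 2 ^ k)
        (Nat.le_add_right _ _)]
      refine (norm_add_le _ _).trans ?_
      have := ih (2 * j + 1) (by rw [e2]; exact hj) z hz
      linarith

/-- the partial sums of the trigonometric polynomial -/
noncomputable def S (a : ℕ → ℂ) (y : ℕ) (x : ℝ) : ℂ := ∑ n ∈ range y, a n * ee (n * x)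

open Classical in
/-- the points `r / 2 ^ K` with a large partial sum -/
noncomputable def Bad (a : ℕ → ℂ) (K : ℕ) (V : ℝ) : Finset ℕ :=
  (range (2 ^ K)).filter fun r => ∃ y < 2 ^ K, V < ‖S a y ((r : ℝ) / (2 ^ K : ℕ))‖

/-- the square of the maximal partial sum at one point -/
lemma max_sq (a : ℕ → ℂ) (K y : ℕ) (hy : y < 2 ^ K) (x : ℝ) :
    ‖S a y x‖ ^ 2 ≤ K * ∑ i ∈ range K, ∑ j ∈ range (2 ^ (K - i)),
      ‖∑ n ∈ Ico (j * 2 ^ i) ((j + 1) * 2 ^ i), a n * ee (n * x)‖ ^ 2 := by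
  set W : ℕ → ℝ := fun i => Real.sqrt (∑ j ∈ range (2 ^ (K - i)),
      ‖∑ n ∈ Ico (j * 2 ^ i) ((j + 1) * 2 ^ i), a n * ee (n * x)‖ ^ 2) with hWdef
  have h1 := dyadic K (fun n => a n * ee (n * x)) W (by
    intro i j hij
    have hi : i ≤ K := by
      have h2 : 2 ^ i ≤ 2 ^ K := le_trans (Nat.le_mul_of_pos_left _ (by omega)) hij
      exact (Nat.pow_le_pow_iff_right (by norm_num)).1 h2
    have hj : j < 2 ^ (K - i) := by
      have h2 : (j + 1) * 2 ^ i ≤ 2 ^ (K - i) * 2 ^ i := by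
        rw [← pow_add, Nat.sub_add_cancel hi]
        exact hij
      have := Nat.le_of_mul_le_mul_right h2 (by positivity)
      omega
    rw [hWdef]
    apply Real.le_sqrt_of_sq_le
    exact single_le_sum (f := fun j => ‖∑ n ∈ Ico (j * 2 ^ i) ((j + 1) * 2 ^ i),
      a n * ee (n * x)‖ ^ 2) (fun _ _ => by positivity) (mem_range.2 hj)) K 0 (by simp) y hy
  simp only [zero_mul, zero_add] at h1
  rw [← range_eq_Ico] at h1
  have h2 : ‖S a y x‖ ^ 2 ≤ (∑ i ∈ range K, W i) ^ 2 := by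
    apply pow_le_pow_left₀ (norm_nonneg _)
    exact h1
  refine h2.trans ?_
  refine (sq_sum_le_card_mul_sum_sq (s := range K) (f := W)).trans ?_
  rw [card_range]
  apply mul_le_mul_of_nonneg_left _ (Nat.cast_nonneg _)
  apply sum_le_sum
  intro i _
  rw [hWdef]
  simp only
  rw [Real.sq_sqrt (sum_nonneg fun _ _ => by positivity)]

/-- there are few points with large partial sums -/
lemma card_bad (a : ℕ → ℂ) (ha : ∀ n, ‖a n‖ ≤ 1) (K : ℕ) (V : ℝ) (hV : 0 ≤ V) :
    ((Bad a K V).card : ℝ) * V ^ 2 ≤ K ^ 2 * 4 ^ K := by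
  classical
  set N : ℕ := 2 ^ K with hN
  have h1 : ((Bad a K V).card : ℝ) * V ^ 2 ≤ ∑ r ∈ range N,
      (K * ∑ i ∈ range K, ∑ j ∈ range (2 ^ (K - i)),
      ‖∑ n ∈ Ico (j * 2 ^ i) ((j + 1) * 2 ^ i), a n * ee (n * ((r : ℝ) / N))‖ ^ 2) := by
    calc ((Bad a K V).card : ℝ) * V ^ 2 = ∑ r ∈ Bad a K V, V ^ 2 := by
          rw [sum_const, nsmul_eq_mul]
      _ ≤ ∑ r ∈ Bad a K V, (K * ∑ i ∈ range K, ∑ j ∈ range (2 ^ (K - i)),
      ‖∑ n ∈ Ico (j * 2 ^ i) ((j + 1) * 2 ^ i), a n * ee (n * ((r : ℝ) / N))‖ ^ 2) := by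
          apply sum_le_sum
          intro r hr
          unfold Bad at hr
          rw [mem_filter] at hr
          obtain ⟨-, y, hy, hVy⟩ := hr
          refine le_trans ?_ (max_sq a K y hy _)
          exact pow_le_pow_left₀ hV hVy.le 2
      _ ≤ _ := by
          apply sum_le_sum_of_subset_of_nonneg
          · unfold Bad
            exact filter_subset _ _
          · intro r _ _
            positivity
  refine h1.trans ?_
  rw [← mul_sum, sum_comm]
  have h2 : ∀ i ∈ range K, ∑ r ∈ range N, ∑ j ∈ range (2 ^ (K - i)),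
      ‖∑ n ∈ Ico (j * 2 ^ i) ((j + 1) * 2 ^ i), a n * ee (n * ((r : ℝ) / N))‖ ^ 2 ≤
      (N : ℝ) * N := by
    intro i hi
    rw [mem_range] at hi
    rw [sum_comm]
    have h3 : ∀ j ∈ range (2 ^ (K - i)), ∑ r ∈ range N,
        ‖∑ n ∈ Ico (j * 2 ^ i) ((j + 1) * 2 ^ i), a n * ee (n * ((r : ℝ) / N))‖ ^ 2 ≤
        (N : ℝ) * 2 ^ i := by
      intro j hj
      rw [mem_range] at hj
      rw [parseval N _ (by
        intro n hn
        rw [mem_Ico] at hn
        calc n < (j + 1) * 2 ^ i := hn.2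
          _ ≤ 2 ^ (K - i) * 2 ^ i := Nat.mul_le_mul_right _ hj
          _ = N := by rw [← pow_add, Nat.sub_add_cancel hi.le]) a]
      apply mul_le_mul_of_nonneg_left _ (Nat.cast_nonneg _)
      calc ∑ n ∈ Ico (j * 2 ^ i) ((j + 1) * 2 ^ i), ‖a n‖ ^ 2
          ≤ ∑ n ∈ Ico (j * 2 ^ i) ((j + 1) * 2 ^ i), (1 : ℝ) := by
            apply sum_le_sum
            intro n _
            exact pow_le_one₀ (norm_nonneg _) (ha n)
        _ = 2 ^ i := by
            rw [sum_const, Nat.card_Ico, nsmul_eq_mul, mul_one]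
            have : (j + 1) * 2 ^ i - j * 2 ^ i = 2 ^ i := by
              rw [← Nat.sub_mul]
              simp
            rw [this]
            push_cast
            rfl
    calc _ ≤ ∑ j ∈ range (2 ^ (K - i)), (N : ℝ) * 2 ^ i := sum_le_sum h3
      _ = (N : ℝ) * N := by
        rw [sum_const, card_range, nsmul_eq_mul]
        have : ((2 ^ (K - i) : ℕ) : ℝ) * 2 ^ i = N := by
          rw [hN]
          push_cast
          rw [← pow_add, Nat.sub_add_cancel hi.le]
        calc ((2 ^ (K - i) : ℕ) : ℝ) * ((N : ℝ) * 2 ^ i) = N * (((2 ^ (K - i) : ℕ) : ℝ) * 2 ^ i) := by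
              ring
          _ = _ := by rw [this]
  calc (K : ℝ) * ∑ i ∈ range K, ∑ r ∈ range N, ∑ j ∈ range (2 ^ (K - i)),
      ‖∑ n ∈ Ico (j * 2 ^ i) ((j + 1) * 2 ^ i), a n * ee (n * ((r : ℝ) / N))‖ ^ 2
      ≤ K * ∑ i ∈ range K, (N : ℝ) * N :=
        mul_le_mul_of_nonneg_left (sum_le_sum h2) (Nat.cast_nonneg _)
    _ = K ^ 2 * 4 ^ K := by
        rw [sum_const, card_range, nsmul_eq_mul, hN]
        push_cast
        have : (4 : ℝ) ^ K = 2 ^ K * 2 ^ K := by
          rw [← mul_pow]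
          norm_num
        rw [this]
        ring

/-- summation by parts -/
lemma abel (a : ℕ → ℂ) (x δ : ℝ) (y : ℕ) :
    S a y (x + δ) = S a y x * ee (y * δ) -
      ∑ n ∈ range y, S a (n + 1) x * (ee ((n + 1 : ℕ) * δ) - ee (n * δ)) := by
  induction y with
  | zero => simp [S]
  | succ y ih =>
    have h1 : S a (y + 1) (x + δ) = S a y (x + δ) + a y * ee (y * (x + δ)) := by
      unfold S
      rw [sum_range_succ]
    have h2 : S a (y + 1) x = S a y x + a y * ee (y * x) := by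
      unfold S
      rw [sum_range_succ]
    have h3 : ee (y * (x + δ)) = ee (y * x) * ee (y * δ) := by
      rw [← ee_add]
      congr 1
      ring
    rw [h1, ih, sum_range_succ, h3]
    rw [h2]
    ring

lemma near (a : ℕ → ℂ) (x δ V : ℝ) (y : ℕ) (h : ∀ z ≤ y, ‖S a z x‖ ≤ V) (N : ℝ) (hN : 0 < N)
    (hyN : (y : ℝ) ≤ N) (hδ : |δ| ≤ 1 / N) : ‖S a y (x + δ)‖ ≤ (1 + 2 * Real.pi) * V := by
  have hV : 0 ≤ V := (norm_nonneg _).trans (h 0 (Nat.zero_le _))
  have hpi := Real.pi_pos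
  rw [abel]
  refine (norm_sub_le _ _).trans ?_
  have h1 : ‖S a y x * ee (y * δ)‖ ≤ V := by
    rw [norm_mul, norm_ee, mul_one]
    exact h y le_rfl
  have h2 : ‖∑ n ∈ range y, S a (n + 1) x * (ee ((n + 1 : ℕ) * δ) - ee (n * δ))‖ ≤
      2 * Real.pi * V := by
    refine (norm_sum_le _ _).trans ?_
    have h3 : ∀ n ∈ range y, ‖S a (n + 1) x * (ee ((n + 1 : ℕ) * δ) - ee (n * δ))‖ ≤
        V * (2 * Real.pi * (1 / N)) := by
      intro n hn
      rw [mem_range] at hn
      rw [norm_mul]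
      apply mul_le_mul (h _ (by omega)) _ (norm_nonneg _) hV
      have h4 : ee ((n + 1 : ℕ) * δ) - ee (n * δ) = ee (n * δ) * (ee δ - 1) := by
        have : ((n + 1 : ℕ) : ℝ) * δ = n * δ + δ := by push_cast; ring
        rw [this, ee_add]
        ring
      rw [h4, norm_mul, norm_ee, one_mul]
      refine (norm_ee_sub_one δ).trans ?_
      apply mul_le_mul_of_nonneg_left hδ (by positivity)
    refine (sum_le_sum h3).trans ?_
    rw [sum_const, card_range, nsmul_eq_mul]
    have h5 : (y : ℝ) * (V * (2 * Real.pi * (1 / N))) = (y / N) * (2 * Real.pi * V) := by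
      field_simp
    rw [h5]
    have h6 : (y : ℝ) / N ≤ 1 := (div_le_one hN).2 hyN
    calc (y : ℝ) / N * (2 * Real.pi * V) ≤ 1 * (2 * Real.pi * V) :=
          mul_le_mul_of_nonneg_right h6 (by positivity)
      _ = 2 * Real.pi * V := one_mul _
  linarith

lemma S_add_int (a : ℕ → ℂ) (y : ℕ) (x : ℝ) (m : ℤ) : S a y (x + m) = S a y x := by
  unfold S
  refine sum_congr rfl fun n _ => ?_
  have : (n : ℝ) * (x + m) = n * x + ((n * m : ℤ) : ℝ) := by push_cast; ring
  rw [this, ee_add, ee_int, mul_one]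

/-- a point with a large partial sum is close to a bad point -/
lemma mem_bad (a : ℕ → ℂ) (K y : ℕ) (hy : y < 2 ^ K) (V t : ℝ)
    (h : (1 + 2 * Real.pi) * V < ‖S a y t‖) :
    ∃ r ∈ Bad a K V, |t - (⌊t⌋ + (r : ℝ) / (2 ^ K : ℕ))| ≤ 1 / (2 ^ K : ℕ) := by
  classical
  set N : ℕ := 2 ^ K with hN
  have hN0 : (0 : ℝ) < N := by
    rw [hN]
    positivity
  set u : ℝ := Int.fract t with hu
  have hu0 : 0 ≤ u := Int.fract_nonneg t
  have hu1 : u < 1 := Int.fract_lt_one t
  set r : ℕ := ⌊N * u⌋₊ with hr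
  have hr1 : (r : ℝ) ≤ N * u := Nat.floor_le (by positivity)
  have hr2 : N * u < r + 1 := Nat.lt_floor_add_one _
  have hrN : r < N := by
    have : (r : ℝ) < N := by
      calc (r : ℝ) ≤ N * u := hr1
        _ < N * 1 := mul_lt_mul_of_pos_left hu1 hN0
        _ = N := mul_one _
    exact_mod_cast this
  have htu : t = u + (⌊t⌋ : ℤ) := by
    rw [hu, Int.fract_add_floor]
  have hdiff : |u - (r : ℝ) / N| ≤ 1 / N := by
    rw [abs_le]
    constructor
    · have : (r : ℝ) / N ≤ u := by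
        rw [div_le_iff₀ hN0]
        linarith
      have h1 : (0 : ℝ) < 1 / N := by positivity
      linarith
    · rw [sub_le_iff_le_add, ← add_div, le_div_iff₀ hN0]
      linarith
  refine ⟨r, ?_, ?_⟩
  · unfold Bad
    rw [mem_filter, mem_range]
    refine ⟨hrN, ?_⟩
    by_contra hcon
    push Not at hcon
    have h1 := near a ((r : ℝ) / N) (u - r / N) V y (fun z hz => hcon z (by omega)) N hN0
      (by exact_mod_cast hy.le) hdiff
    rw [add_sub_cancel] at h1
    have h2 : S a y t = S a y u := by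
      rw [htu, S_add_int]
    rw [h2] at h
    linarith
  · have : t - (⌊t⌋ + (r : ℝ) / N) = u - r / N := by
      rw [hu]
      unfold Int.fract
      ring
    rw [this]
    exact hdiff

end Pool.Agent.TH735.MS
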